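import Mathlib
import Pool.Agent.H31.Count

set_option autoImplicit false
open Finset Filter Topology Classical Module

namespace Pool.Agent.Results.MP_b5ddc9_co.Lower

/-- Every r-colouring of F_2^n has a 2-dimensional subspace whose nonzero vectors all get one
colour other than the last, or a d-dimensional subspace whose nonzero vectors get the last colour. -/
def Arrow (r d n : ℕ) : Prop :=
  ∀ χ : (Fin n → ZMod 2) → Fin r,
    (∃ i : Fin r, i.val + 1 ≠ r ∧ ∃ W : Submodule (ZMod 2) (Fin n → ZMod 2),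
      finrank (ZMod 2) W = 2 ∧ ∀ v ∈ W, v ≠ 0 → χ v = i) ∨
    ∃ W : Submodule (ZMod 2) (Fin n → ZMod 2),
      finrank (ZMod 2) W = d ∧ ∀ v ∈ W, v ≠ 0 → (χ v).val + 1 = r

noncomputable def R (r d : ℕ) : ℕ∞ := ⨅ (n : ℕ) (_ : Arrow r d n), (n : ℕ∞)

def g2 {V : Type} [Add V] {k : ℕ} (p : V × (Fin k → V)) : Option (Fin k × Bool) → V
  | none => p.1
  | some (i, false) => p.2 i
  | some (i, true) => p.1 + p.2 i

theorem greedy {n k : ℕ} (hk : 0 < k) (A : Finset (Fin n → ZMod 2)) (h0 : 0 ∉ A)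
    (h : ∀ p : (Fin n → ZMod 2) × (Fin k → Fin n → ZMod 2), Function.Injective (g2 p) →
      ∃ j, g2 p j ∉ A) : ∃ χ : (Fin n → ZMod 2) → Fin k, ∀ x ∈ A, ∀ y ∈ A, x + y ∈ A →
      χ x = χ y → χ y ≠ χ (x + y) := by
  have aa : ∀ a : Fin n → ZMod 2, a + a = 0 := fun a => by
    funext t; exact CharTwo.add_self_eq_zero _
  induction A using Finset.induction_on with
  | empty => exact ⟨fun _ => ⟨0, hk⟩, by simp⟩
  | insert z B hz ih =>
    obtain ⟨χ, hχ⟩ := ih (fun e => h0 (mem_insert_of_mem e)) fun p hp =>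
      (h p hp).imp fun j hj e => hj (mem_insert_of_mem e)
    have z0 : z ≠ 0 := fun e => h0 (by simp [e])
    obtain ⟨c, hc⟩ : ∃ c, ∀ y ∈ B, z + y ∈ B → χ y = c → χ (z + y) ≠ c := by
      by_contra hc
      push Not at hc
      choose y h1 h2 h3 h4 using hc
      obtain ⟨j, hj⟩ := h (z, y) (by
        rintro (_ | ⟨i, _ | _⟩) (_ | ⟨j, _ | _⟩) e <;> simp only [g2] at e
        · rfl
        · exact absurd (e ▸ h1 j) hz
        · exact absurd (e ▸ h2 j) hz
        · exact absurd (e ▸ h1 i) hz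
        · rw [← h3 i, e, h3]
        · obtain rfl : i = j := by rw [← h3 i, e, h4]
          exact absurd (by simpa using e) z0
        · exact absurd (e ▸ h2 i) hz
        · obtain rfl : i = j := by rw [← h4 i, e, h3]
          exact absurd (by simpa using e) z0
        · rw [← h4 i, e, h4])
      rcases j with _ | ⟨i, _ | _⟩ <;> simp [g2, h1, h2] at hj
    refine ⟨Function.update χ z c, fun x hx y hy hxy e1 e2 => ?_⟩
    have x0 : x ≠ 0 := fun e => h0 (e ▸ hx)
    have y0 : y ≠ 0 := fun e => h0 (e ▸ hy)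
    have s0 : x + y ≠ 0 := fun e => h0 (e ▸ hxy)
    have up : ∀ w, w ≠ z → Function.update χ z c w = χ w := fun w hw => Function.update_of_ne hw _ _
    have mem : ∀ w ∈ insert z B, w ≠ z → w ∈ B := fun w hw e => (mem_insert.mp hw).resolve_left e
    by_cases a : x = z
    · subst a
      have b1 : y ≠ x := fun e => s0 (by rw [e, aa])
      have b2 : x + y ≠ x := by simpa using y0
      rw [Function.update_self, up y b1] at e1
      rw [up y b1, up _ b2] at e2
      exact hc y (mem y hy b1) (mem _ hxy b2) e1.symm (e2.symm.trans e1.symm)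
    by_cases b : y = z
    · subst b
      have b2 : x + y ≠ y := by simpa using x0
      rw [Function.update_self, up x a] at e1
      rw [Function.update_self, up _ b2] at e2
      exact hc x (mem x hx a) (by rw [add_comm]; exact mem _ hxy b2) e1 (by rw [add_comm, ← e2])
    by_cases d : x + y = z
    · have e3 : z + x = y := by rw [← d, add_comm x, add_assoc, aa, add_zero]
      rw [up x a, up y b] at e1
      rw [up y b, d, Function.update_self] at e2
      exact hc x (mem x hx a) (e3 ▸ mem y hy b) (e1.trans e2) (by rw [e3, e2])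
    · rw [up x a, up y b] at e1
      rw [up y b, up _ d] at e2
      exact hχ x (mem x hx a) y (mem y hy b) (mem _ hxy d) e1 e2

theorem cr {α β Λ : Type} [Fintype α] [Fintype β] [Fintype Λ] (γ : α → β)
    (hγ : Function.Injective γ) (S : Finset (β → Λ)) (T : Finset (α → Λ))
    (h : ∀ x, x ∈ S ↔ x ∘ γ ∈ T) :
    S.card * Fintype.card Λ ^ Fintype.card α = T.card * Fintype.card Λ ^ Fintype.card β := by
  have e := H31.Count.card_restrict γ hγ (· ∈ T)
  convert e using 3
  · ext x; simp [h]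
  · ext x; simp

theorem no_arrow (k d n a b : ℕ) (hk : 0 < k) (hd : a + b = d) (h1 : n * d + 3 ≤ 2 ^ b)
    (h2 : n * (k + 1) + 1 ≤ a * (2 * k + 1)) : ¬ Arrow (k + 1) d n := by
  intro hA
  let V := Fin n → ZMod 2
  have hV : Fintype.card V = 2 ^ n := by simp [V]
  let g1 : (Fin d → V) → {u : Fin d → ZMod 2 // u ≠ 0} → V := fun w u => ∑ i, u.1 i • w i
  have M0 : (0 : ℝ) < 2 ^ a := by positivity
  obtain ⟨f, f1, f2⟩ : ∃ f : V → Fin (2 ^ a),
      (∀ w, Function.Injective (g1 w) → ∃ u, f (g1 w u) = 0) ∧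
      ∀ p : V × (Fin k → V), Function.Injective (g2 p) → ∃ j, f (g2 p j) ≠ 0 := by
    by_contra hc
    have c0 : (univ : Finset (V → Fin (2 ^ a))) ⊆
        (univ.filter fun w => Function.Injective (g1 w)).biUnion (fun w =>
          univ.filter fun f => ∀ u, (f ∘ g1 w) u ≠ 0) ∪
        (univ.filter fun p : V × (Fin k → V) => Function.Injective (g2 p)).biUnion (fun p =>
          univ.filter fun f => ∀ j, (f ∘ g2 p) j = 0) := by
      intro f _
      by_contra h
      simp only [mem_union, mem_biUnion, mem_filter, mem_univ, true_and, not_or, not_exists,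
        not_and, not_forall, not_not, Function.comp] at h
      exact hc ⟨f, h.1, h.2⟩
    have c1 : ∀ w, Function.Injective (g1 w) → ((univ.filter fun f : V → Fin (2 ^ a) =>
        ∀ u, (f ∘ g1 w) u ≠ 0).card : ℝ) ≤ (2 ^ a) ^ 2 ^ n / 2 ^ (n * d + 2) := by
      intro w hw
      have e := cr (Λ := Fin (2 ^ a)) _ hw (univ.filter fun f : V → Fin (2 ^ a) =>
        ∀ u, (f ∘ g1 w) u ≠ 0) (Fintype.piFinset fun _ => univ.erase 0) (by simp)
      have e3 : Fintype.card {u : Fin d → ZMod 2 // u ≠ 0} = 2 ^ d - 1 := by simp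
      have e4 : ((univ.filter fun f : V → Fin (2 ^ a) => ∀ u, (f ∘ g1 w) u ≠ 0).card : ℝ) *
          (2 ^ a) ^ (2 ^ d - 1) = (2 ^ a - 1) ^ (2 ^ d - 1) * (2 ^ a) ^ 2 ^ n := by
        have e5 : ((2 ^ a - 1 : ℕ) : ℝ) = 2 ^ a - 1 := by
          rw [Nat.cast_sub Nat.one_le_two_pow]; simp
        rw [Fintype.card_piFinset, prod_const, card_univ, e3, hV, card_erase_of_mem (mem_univ _),
          card_univ, Fintype.card_fin] at e
        rw [← e5]
        exact_mod_cast e
      have e6 : ((2 : ℝ) ^ a - 1) ^ (2 ^ d - 1) * 2 ^ (n * d + 2) ≤ (2 ^ a) ^ (2 ^ d - 1) := by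
        have i1 : (2 : ℝ) ^ a - 1 ≤ 2 ^ a * Real.exp (-(1 / 2 ^ a)) := by
          have := Real.add_one_le_exp (-(1 / 2 ^ a))
          calc (2 : ℝ) ^ a - 1 = 2 ^ a * (-(1 / 2 ^ a) + 1) := by field_simp; ring
            _ ≤ _ := by gcongr
        have i2 : (2 : ℝ) ^ (n * d + 2) ≤ Real.exp (1 / 2 ^ a) ^ (2 ^ d - 1) := by
          refine le_trans (pow_le_pow_left₀ (by norm_num) (show (2 : ℝ) ≤ Real.exp 1 by
            linarith [Real.add_one_le_exp 1]) _) ?_
          rw [← Real.exp_nat_mul, ← Real.exp_nat_mul, Real.exp_le_exp, mul_one, mul_one_div,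
            le_div_iff₀ M0]
          norm_cast
          have : 1 ≤ 2 ^ a := Nat.one_le_two_pow
          rw [← hd, pow_add]
          refine Nat.le_sub_of_add_le ?_
          rw [hd]; nlinarith
        have i3 : (1 : ℝ) ≤ 2 ^ a := one_le_pow₀ (by norm_num)
        refine le_trans (mul_le_mul (pow_le_pow_left₀ (by linarith) i1 _) i2 (by positivity)
          (by positivity)) (le_of_eq ?_)
        rw [← mul_pow, mul_assoc, ← Real.exp_add]; simp
      rw [le_div_iff₀ (by positivity)]
      refine le_of_mul_le_mul_right ?_ (show (0 : ℝ) < (2 ^ a) ^ (2 ^ d - 1) by positivity)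
      rw [mul_right_comm, e4, mul_right_comm, mul_comm]
      gcongr
    have c2 : ∀ p : V × (Fin k → V), Function.Injective (g2 p) →
        ((univ.filter fun f : V → Fin (2 ^ a) => ∀ j, (f ∘ g2 p) j = 0).card : ℝ) ≤
          (2 ^ a) ^ 2 ^ n / 2 ^ (n * (k + 1) + 1) := by
      intro p hp
      have e4 := cr (Λ := Fin (2 ^ a)) _ hp (univ.filter fun f : V → Fin (2 ^ a) =>
        ∀ j, (f ∘ g2 p) j = 0) {0} (by simp [funext_iff])
      rw [hV, Fintype.card_fin, card_singleton,
        show Fintype.card (Option (Fin k × Bool)) = 2 * k + 1 by simp [mul_comm]] at e4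
      rw [le_div_iff₀ (by positivity)]
      norm_cast
      rw [one_mul] at e4
      rw [← e4, ← pow_mul]
      exact Nat.mul_le_mul_left _ (Nat.pow_le_pow_right (by omega) h2)
    have c3 : (((2 ^ a) ^ 2 ^ n : ℕ) : ℝ) ≤ _ := Nat.cast_le.mpr (le_trans (by simp [hV])
      ((card_le_card c0).trans ((card_union_le _ _).trans
        (add_le_add card_biUnion_le card_biUnion_le))))
    push_cast at c3
    have c4 := sum_le_card_nsmul _ _ _ fun w hw => c1 w (mem_filter.mp (show w ∈ univ.filter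
      fun w => Function.Injective (g1 w) from hw)).2
    have c5 := sum_le_card_nsmul _ _ _ fun p hp => c2 p (mem_filter.mp (show p ∈ univ.filter
      fun p : V × (Fin k → V) => Function.Injective (g2 p) from hp)).2
    have c6 : ((univ.filter fun w => Function.Injective (g1 w)).card : ℝ) ≤ 2 ^ (n * d) := by
      exact_mod_cast (card_le_univ _).trans (by simp [hV, pow_mul])
    have c7 : ((univ.filter fun p : V × (Fin k → V) => Function.Injective (g2 p)).card : ℝ) ≤
        2 ^ (n * (k + 1)) := by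
      exact_mod_cast (card_le_univ _).trans (by simp [hV, pow_mul, pow_succ'])
    rw [nsmul_eq_mul] at c4 c5
    have c8 := c4.trans (mul_le_mul_of_nonneg_right c6 (by positivity))
    have c9 := c5.trans (mul_le_mul_of_nonneg_right c7 (by positivity))
    rw [pow_add, ← mul_div_assoc, mul_div_mul_left _ _ (by positivity)] at c8 c9
    have : (0 : ℝ) < (2 ^ a) ^ 2 ^ n := by positivity
    linarith
  obtain ⟨χ, hχ⟩ := greedy hk (univ.filter fun x : V => x ≠ 0 ∧ f x = 0) (by simp)
    fun p hp => (f2 p hp).imp fun j hj e => hj (mem_filter.mp e).2.2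
  rcases hA (fun x => if f x = 0 then (χ x).castSucc else Fin.last k) with
    ⟨i, hi, W, hW, h⟩ | ⟨W, hW, h⟩
  · let B := finBasisOfFinrankEq (ZMod 2) W hW
    have li := B.linearIndependent
    have n0 : ∀ j, (B j : V) ≠ 0 := fun j e => B.ne_zero j (Subtype.ext e)
    have n1 : (B 0 : V) + B 1 ≠ 0 := fun e => by
      have := li.injective (a₁ := 0) (a₂ := 1) (Subtype.ext (by
        rw [add_eq_zero_iff_eq_neg] at e; rw [e]; funext t; exact CharTwo.neg_eq _))
      simp at this
    have key : ∀ v ∈ W, v ≠ 0 → f v = 0 ∧ (χ v).castSucc = i := fun v hv v0 => by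
      have := h v hv v0
      split_ifs at this with c
      · exact ⟨c, this⟩
      · exact absurd (by simp [← this]) hi
    have k0 := key _ (B 0).2 (n0 0)
    have k1 := key _ (B 1).2 (n0 1)
    have k2 := key _ (W.add_mem (B 0).2 (B 1).2) n1
    exact hχ _ (by simp [n0, k0.1]) _ (by simp [n0, k1.1]) (by simp [n1, k2.1])
      (Fin.castSucc_injective _ (k0.2.trans k1.2.symm))
      (Fin.castSucc_injective _ (k1.2.trans k2.2.symm))
  · let B := finBasisOfFinrankEq (ZMod 2) W hW
    have e : ∀ u, g1 (fun i => B i) u = (B.equivFun.symm u.1 : W) := fun u => by simp [g1]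
    obtain ⟨u, hu⟩ := f1 (fun i => B i) fun u v h' => Subtype.ext (B.equivFun.symm.injective
      (Subtype.ext (by rw [← e, ← e, h'])))
    have := h (g1 (fun i => B i) u) (by rw [e]; exact Subtype.prop _) (by
      rw [e]
      exact fun h0 => u.2 (B.equivFun.symm.injective (Subtype.ext (h0.trans (by simp)))))
    rw [if_pos hu] at this
    have h3 := (χ (g1 (fun i => B i) u)).2
    simp only [Fin.val_castSucc] at this
    omega

theorem main (r : ℕ) (hr : 2 ≤ r) (ε : ℝ) (hε : 0 < ε) : ∀ᶠ d : ℕ in atTop, ∀ n : ℕ,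
    Arrow r d n → (2 - 1 / r - ε) * d ≤ n := by
  obtain ⟨k, rfl⟩ : ∃ k, r = k + 1 := ⟨r - 1, by omega⟩
  obtain ⟨K, hK⟩ := exists_nat_gt (4 / ε)
  have K0 : (0 : ℝ) < K := lt_trans (by positivity) hK
  have K1 : 0 < K := by exact_mod_cast K0
  have t1 := (Nat.tendsto_div_const_atTop K1.ne').eventually (((tendsto_order.mp
    (tendsto_pow_const_div_const_pow_of_one_lt 2 (show (1 : ℝ) < 2 by norm_num))).2
    (1 / (11 * K ^ 2)) (by positivity)).and (eventually_ge_atTop 1))
  filter_upwards [t1, eventually_ge_atTop K] with d ⟨a1, a2⟩ a3 n hn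
  by_contra hc
  rw [not_le] at hc
  have b1 : d < K * (d / K + 1) := Nat.lt_mul_div_succ _ K1
  have b2 : d / K * K ≤ d := Nat.div_mul_le_self _ _
  have b3 := Nat.div_le_self d K
  generalize d / K = b at *
  have k0 : (0 : ℝ) < k + 1 := by positivity
  have d0 : (0 : ℝ) ≤ d := by positivity
  have b4 : n ≤ 2 * d := by
    have : (0 : ℝ) ≤ 1 / (k + 1 : ℕ) := by positivity
    exact_mod_cast (show (n : ℝ) ≤ 2 * d by nlinarith)
  refine no_arrow k d n (d - b) b (by omega) (by omega) ?_ ?_ hn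
  · rw [div_lt_div_iff₀ (by positivity) (by positivity), one_mul] at a1
    have : b ^ 2 * (11 * K ^ 2) < 2 ^ b := by exact_mod_cast a1
    have c1 : d ≤ 2 * (K * b) := by nlinarith
    have c2 : 1 ≤ K * b := Nat.mul_pos K1 a2
    have c3 : n * d ≤ (4 * (K * b)) * (2 * (K * b)) := Nat.mul_le_mul (by omega) c1
    nlinarith
  · rw [div_lt_iff₀ hε] at hK
    have c1 : (b : ℝ) * K ≤ d := by exact_mod_cast b2
    have c2 : (K : ℝ) ≤ d := by exact_mod_cast a3
    have c3 : 4 * b ≤ ε * d := by nlinarith [Nat.cast_nonneg (α := ℝ) b]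
    have c4 : 4 ≤ ε * d := by nlinarith
    have c5 : (n : ℝ) * (k + 1) ≤ (2 * k + 1) * d - ε * d * (k + 1) := by
      have := mul_le_mul_of_nonneg_right hc.le k0.le
      refine this.trans (le_of_eq ?_)
      push_cast; field_simp; ring
    have c6 : (n : ℝ) * (k + 1) + 1 ≤ (d - b) * (2 * k + 1) := by
      nlinarith [Nat.cast_nonneg (α := ℝ) k, Nat.cast_nonneg (α := ℝ) b]
    rw [← Nat.cast_sub b3] at c6
    exact_mod_cast c6

theorem result :
    (∀ r : ℕ, 2 ≤ r → ∀ ε : ℝ, 0 < ε → ∀ᶠ d : ℕ in atTop,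
      (⌈(2 - 1 / r - ε) * d⌉₊ : ℕ∞) ≤ R r d) ∧
    ∃ c : ℝ, 0 < c ∧ ∀ ε : ℝ, 0 < ε → ∀ᶠ d : ℕ in atTop,
      (⌈(3 / 2 + c - ε) * d⌉₊ : ℕ∞) ≤ R 1000 d := by
  have h : ∀ r : ℕ, 2 ≤ r → ∀ ε : ℝ, 0 < ε → ∀ᶠ d : ℕ in atTop,
      (⌈(2 - 1 / r - ε) * d⌉₊ : ℕ∞) ≤ R r d := fun r hr ε hε =>
    (main r hr ε hε).mono fun d h => le_iInf₂ fun n hn => by
      exact_mod_cast Nat.ceil_le.mpr (h n hn)
  refine ⟨h, 499 / 1000, by norm_num, fun ε hε => ?_⟩
  convert h 1000 (by norm_num) ε hε using 6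
  norm_num

end Pool.Agent.Results.MP_b5ddc9_co.Lower
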